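import Pool.Agent.N5.HH.Vanish
import Pool.Agent.N5.HH.Exist

/-!
# The Hermite-Hadamard-Howe map kills the component `S_{(7^4)} V` of `S^7(S^4 V)`
-/

set_option autoImplicit false

namespace Pool.Agent.Results.MP_96ff56_al.OddRectangles

open Pool.Agent.N5.HH

/-- `S_{(7^4)} V` occurs in `S^7(S^4 V)` for `dim V = 4`, and for all odd `d` and all `n ≥ 2`
(in particular for `d = 7`, `n = 4`) the map `h_{d,n}` vanishes identically on the
`S_{(d^n)} V`-isotypic component of `S^d(S^n V)`, `dim V = n`. -/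
theorem result :
    (∀ (V : Type) [AddCommGroup V] [Module ℂ V], Module.finrank ℂ V = 4 →
      rectComponent V 7 4 ≠ ⊥) ∧
    (∀ (d n : ℕ), Odd d → 2 ≤ n → ∀ (V : Type) [AddCommGroup V] [Module ℂ V],
      Module.finrank ℂ V = n → rectComponent V d n ≤ LinearMap.ker (hhh V d n)) := by
  refine ⟨fun V _ _ hV h0 => ?_, fun d n hd hn V _ _ hV t ht => ?_⟩
  · obtain ⟨t, ht, hne⟩ := Ex.exists_ne_zero hV
    rw [h0] at ht
    exact hne ((Submodule.mem_bot ℂ).mp ht)
  · have : FiniteDimensional ℂ V := Module.finite_of_finrank_pos (by omega)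
    exact vanish hV hd hn ht

end Pool.Agent.Results.MP_96ff56_al.OddRectangles
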